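import Mathlib
import Pool.Agent.TH668.Gen.J

/-!
# Generic families of multiplicative functions with values `1` and `-1` are jointly Bernoulli along
a common sequence

`mulOf ω` (`Pool.Agent.TH668.Gen.A`): the multiplicative function whose value at every prime power
`p ^ k`, `k ≥ 1`, is `1` if `ω (p ^ k)` is true and `-1` otherwise.
-/

set_option autoImplicit false

namespace Pool.Agent.Results.MP_4a7640_nt.GenericBernoulli

open Finset Filter Pool.Agent.W257.FS Pool.Agent.TH668.Gen

/-- `f` is aperiodic -/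
def Aper (f : ℕ → ℝ) : Prop :=
  ∀ (q : ℕ) (χ : DirichletCharacter ℂ q), 1 ≤ q → ¬ Summable (fun p : Nat.Primes =>
    (1 - ((f p : ℂ) * star (χ ((p : ℕ) : ZMod q))).re) / ((p : ℕ) : ℝ))

/-- for comeager many sequences `f₀, f₁, ...` of multiplicative functions all finite products are
aperiodic and all joint logarithmic correlations vanish along one sequence `N k → ∞` -/
theorem result :
    (∀ ω : ℕ → Bool, SignMul (mulOf ω)) ∧
    (∀ f, SignMul f → ∃ ω : ℕ → Bool, ∀ n, 1 ≤ n → mulOf ω n = f n) ∧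
    ∀ᶠ ω in residual (ℕ → ℕ → Bool),
      (∀ S : Finset ℕ, S.Nonempty → Aper (fun n => ∏ i ∈ S, mulOf (ω i) n)) ∧
      ∃ N : ℕ → ℕ, Tendsto N atTop atTop ∧ ∀ A : Finset (ℕ × ℕ), A.Nonempty →
        Tendsto (fun k => (∑ n ∈ Icc 1 (N k), (∏ a ∈ A, mulOf (ω a.2) (n + a.1)) / n) /
          Real.log (N k)) atTop (nhds 0) := by
  refine ⟨mulOf_signMul, fun f hf => exists_mulOf hf, ?_⟩
  filter_upwards [far_generic2, family_generic] with ω h1 h2
  exact ⟨fun S hS q χ hq => h1 S hS q χ hq, h2⟩

end Pool.Agent.Results.MP_4a7640_nt.GenericBernoulli
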