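import Mathlib
import Pool.Agent.TH668.Gen.I

/-!
# A zero-one law for the Furstenberg systems of multiplicative functions with values `1` and `-1`

`SignMul f`: `f 1 = 1`, `f (m n) = f m f n` for coprime `m, n`, and `f n ∈ {1, -1}` for `n ≥ 1`
(defined in `Pool.Agent.W257.FS.D`).  `bern`: the law of independent fair signs on `ℤ → ℝ`;
`IsFurst f μ`: the probability measure `μ` is a Furstenberg system of `f` (`Pool.Agent.W257.FS.F`,
`G`).  `mulOf ω` (`Pool.Agent.TH668.Gen.A`): the multiplicative function whose value at every prime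
power `p ^ k`, `k ≥ 1`, is `1` if `ω (p ^ k)` is true and `-1` otherwise.
`Corr f H N` (`Pool.Agent.TH668.Gen.C`): `(1 / log N) ∑_{n ≤ N} (∏_{h ∈ H} f (n + h)) / n`.
-/

set_option autoImplicit false

namespace Pool.Agent.Results.MP_4a7640_nt.GenericDichotomy

open Finset Filter MeasureTheory Pool.Agent.W257.FS Pool.Agent.TH668.Gen

/-- `f` is aperiodic -/
def Aper (f : ℕ → ℝ) : Prop :=
  ∀ (q : ℕ) (χ : DirichletCharacter ℂ q), 1 ≤ q → ¬ Summable (fun p : Nat.Primes =>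
    (1 - ((f p : ℂ) * star (χ ((p : ℕ) : ZMod q))).re) / ((p : ℕ) : ℝ))

/-- finitely many values of a multiplicative function can be kept and finitely many further ones be
prescribed so that the correlation at the shifts in `H` is at most `ε`, from some point on and
uniformly over all multiplicative functions with these values -/
def Tame : Prop :=
  ∀ (H : Finset ℕ) (ε : ℝ), H.Nonempty → 0 < ε →
    ∀ (f₀ : ℕ → ℝ) (n₀ : ℕ), SignMul f₀ →
      ∃ f₁ : ℕ → ℝ, SignMul f₁ ∧ (∀ n, 1 ≤ n → n < n₀ → f₁ n = f₀ n) ∧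
        ∃ n₁ N₀ : ℕ, ∀ f : ℕ → ℝ, SignMul f → (∀ n, 1 ≤ n → n < n₁ → f n = f₁ n) →
          ∀ N, N₀ ≤ N → |Corr f H N| ≤ ε

/-- (1) `mulOf` parametrizes all multiplicative functions; (2) zero-one law; (3) the criterion;
(4) the consequence of the conjecture -/
theorem result :
    ((∀ ω, SignMul (mulOf ω)) ∧ ∀ f, SignMul f → ∃ ω, ∀ n, 1 ≤ n → mulOf ω n = f n) ∧
    Xor (∀ᶠ ω in residual (ℕ → Bool), Aper (mulOf ω) ∧ ∀ μ, IsFurst (mulOf ω) μ ↔ μ = bern)
      (∀ᶠ ω in residual (ℕ → Bool), Aper (mulOf ω) ∧ IsFurst (mulOf ω) bern ∧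
        ¬ {μ | IsFurst (mulOf ω) μ}.Countable) ∧
    (Tame ↔ ∀ᶠ ω in residual (ℕ → Bool), Aper (mulOf ω) ∧ ∀ μ, IsFurst (mulOf ω) μ ↔ μ = bern) ∧
    ((∀ f, SignMul f → Aper f → ∃ μ, ∀ ν, IsFurst f ν → ν = μ) → Tame) := by
  have hT : Tame ↔ ∀ H : Finset ℕ, H.Nonempty → ∀ ε : ℝ, 0 < ε → SmallS H ε := by
    constructor
    · intro h H hH ε hε
      rw [smallS_iff]
      exact fun f0 n0 hf0 => h H ε hH hε f0 n0 hf0
    · intro h H ε hH hε f0 n0 hf0
      exact (smallS_iff H ε).1 (h H hH ε hε) f0 n0 hf0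
  have hA : Tame → ∀ᶠ ω in residual (ℕ → Bool), Aper (mulOf ω) ∧
      ∀ μ, IsFurst (mulOf ω) μ ↔ μ = bern := by
    intro h
    filter_upwards [far_generic, generic_of_small (hT.1 h)] with ω h1 hω
    exact ⟨h1, furst_of_corr (mulOf_signMul ω) (mulOf_or ω) hω⟩
  have hB : ¬ Tame → ∀ᶠ ω in residual (ℕ → Bool), Aper (mulOf ω) ∧ IsFurst (mulOf ω) bern ∧
        ¬ {μ | IsFurst (mulOf ω) μ}.Countable := by
    intro h
    rw [hT] at h
    push Not at h
    obtain ⟨H, hH, ε, hε, hS⟩ := h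
    filter_upwards [far_generic, bern_generic, generic_of_not_small hH hε hS] with ω h1 h2 h3
    obtain ⟨H', hH', h4⟩ := h3
    exact ⟨h1, h2, uncountable (mulOf_or ω) h2 hH' h4⟩
  have hAB : (∀ᶠ ω in residual (ℕ → Bool), Aper (mulOf ω) ∧
      ∀ μ, IsFurst (mulOf ω) μ ↔ μ = bern) → ¬ ∀ᶠ ω in residual (ℕ → Bool), Aper (mulOf ω) ∧
        IsFurst (mulOf ω) bern ∧ ¬ {μ | IsFurst (mulOf ω) μ}.Countable := by
    intro h h'
    obtain ⟨ω, -, h1, h2⟩ := res_meets (h.and h') (fun _ => true) 0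
    refine h2.2.2 ?_
    have e : {μ | IsFurst (mulOf ω) μ} = {bern} := by
      ext μ
      rw [Set.mem_singleton_iff]
      exact h1.2 μ
    rw [e]
    exact Set.countable_singleton _
  refine ⟨⟨mulOf_signMul, fun f hf => exists_mulOf hf⟩, ?_, ⟨hA, fun h => ?_⟩, fun h => ?_⟩
  · by_cases h : Tame
    · exact Or.inl ⟨hA h, hAB (hA h)⟩
    · exact Or.inr ⟨hB h, fun h' => hAB h' (hB h)⟩
  · by_contra hn
    exact hAB h (hB hn)
  · by_contra hn
    obtain ⟨ω, -, h1, h2, h3⟩ := res_meets (hB hn) (fun _ => true) 0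
    obtain ⟨μ, hμ⟩ := h (mulOf ω) (mulOf_signMul ω) h1
    refine h3 ((Set.countable_singleton μ).mono ?_)
    intro ν hν
    exact hμ ν hν

end Pool.Agent.Results.MP_4a7640_nt.GenericDichotomy
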